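import Pool.Agent.H5.Deco4
import Pool.Agent.H5.Strict

set_option autoImplicit false

open Filter Topology

namespace Pool.Agent.Results.MP_5ffaeb_an.BPBQ1

open Pool.Agent.H5 Pool.Agent.H5.Deco Pool.Agent.H5.Asq

/-- the Bishop-Phelps-Bollobas property of the pair `(X, Y)` -/
def BPBp (X Y : Type) [NormedAddCommGroup X] [NormedSpace ℝ X] [NormedAddCommGroup Y]
    [NormedSpace ℝ Y] : Prop :=
  ∀ ε : ℝ, 0 < ε → ε < 1 → ∃ η : ℝ, 0 < η ∧ ∀ (T : X →L[ℝ] Y) (x₀ : X), ‖T‖ = 1 → ‖x₀‖ = 1 →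
    1 - η < ‖T x₀‖ → ∃ (S : X →L[ℝ] Y) (u₀ : X), ‖S‖ = 1 ∧ ‖u₀‖ = 1 ∧ ‖S u₀‖ = 1 ∧
      ‖x₀ - u₀‖ < ε ∧ ‖S - T‖ < ε

lemma two (m : ℕ) (s t : ℝ) (n : ℕ) : (s • u m + t • u (m + 1)) n =
    if n = m then s else if n = m + 1 then t else 0 := by
  show s * (if n = m then 1 else 0) + t * (if n = m + 1 then 1 else 0) = _
  by_cases h : n = m
  · simp [h]
  · simp [h]

lemma two_le (m : ℕ) {s t : ℝ} (hs : |s| ≤ 1) (ht : |t| ≤ 1) :
    ‖s • u m + t • u (m + 1)‖ ^ 2 + Strict.H (s • u m + t • u (m + 1)) ≤ 1 + 2 * (1 / 2) ^ m := by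
  have h1 : ‖s • u m + t • u (m + 1)‖ ≤ 1 := norm_le_of _ zero_le_one fun n => by
    rw [two]
    split_ifs <;> simp [hs, ht]
  have h2 : Strict.H (s • u m + t • u (m + 1)) ≤ (1 / 2) ^ m + (1 / 2) ^ m :=
    hasSum_le (fun n => by
      have h3 := (Strict.sq_le (s • u m + t • u (m + 1)) n).trans (pow_le_one₀ (norm_nonneg _) h1)
      have h4 := mul_le_of_le_one_right (show (0 : ℝ) ≤ (1 / 2) ^ n by positivity) h3
      by_cases h : n = m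
      · rw [if_pos h, if_neg (by omega), add_zero]
        exact h4.trans_eq (by rw [h])
      · by_cases h' : n = m + 1
        · rw [if_neg h, if_pos h', zero_add]
          exact h4.trans (pow_le_pow_of_le_one (by norm_num) (by norm_num) (by omega))
        · simp [two, h, h']) (Strict.H_sum _).hasSum
      ((hasSum_ite_eq m _).add (hasSum_ite_eq (m + 1) _))
  linarith [pow_le_one₀ (n := 2) (norm_nonneg _) h1]

/-- The Bishop-Phelps-Bollobas property does not pass to one-complemented subspaces of the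
domain. -/
theorem result : ∃ (X Y : Type) (_ : NormedAddCommGroup X) (_ : NormedSpace ℝ X)
    (_ : CompleteSpace X) (_ : NormedAddCommGroup Y) (_ : NormedSpace ℝ Y) (_ : CompleteSpace Y)
    (X₁ : Submodule ℝ X) (P : X →L[ℝ] X), IsClosed (X₁ : Set X) ∧ (∀ x, P (P x) = P x) ∧
      Set.range P = X₁ ∧ ‖P‖ ≤ 1 ∧ BPBp X Y ∧ ¬ BPBp X₁ Y := by
  obtain ⟨X, i1, i2, i3, e, h1, h2, h3⟩ := model.{0} ℝ
  obtain ⟨Y, j1, j2, j3, d, hd0, hd1, hd2⟩ := Strict.space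
  let π : X →L[ℝ] HH ℝ := (P ℝ 0).comp (e.symm : X →L[ℝ] HH ℝ)
  let Q : X →L[ℝ] X := (e : HH ℝ →L[ℝ] X).comp π
  have hπ : ∀ z, π (e z) = P ℝ 0 z := fun z => congrArg (P ℝ 0) (e.symm_apply_apply z)
  have hQ : ∀ x, Q (Q x) = Q x := fun x => congrArg e ((hπ _).trans (P_P ℝ le_rfl _))
  have h4 : ∀ (B : Type) [NormedAddCommGroup B] [NormedSpace ℝ B] (F : HH ℝ →L[ℝ] B) (C : ℝ),
      (∀ (c : ℝ) h, ‖c‖ ≤ 1 → ‖h‖ ≤ 1 → ‖F (c • E ℝ (0, 0) + h)‖ ≤ C) →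
        ∀ x, ‖F (π x)‖ ≤ C * ‖x‖ := fun B _ _ F C hF x => by
    have h5 := h3 B F C hF (e.symm x)
    rwa [e.apply_symm_apply] at h5
  let X₁ : Submodule ℝ X := LinearMap.ker (Q - ContinuousLinearMap.id ℝ X).toLinearMap
  have hX₁ : ∀ x, x ∈ X₁ ↔ Q x = x := fun x => sub_eq_zero
  refine ⟨X, Y, i1, i2, i3, j1, j2, j3, X₁, Q, ContinuousLinearMap.isClosed_ker _, hQ, ?_,
    Q.opNorm_le_bound zero_le_one (h4 X e 1 h2), fun ε hε _ => ?_, fun hb => ?_⟩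
  · ext x
    exact ⟨by rintro ⟨y, rfl⟩; exact (hX₁ _).2 (hQ y), fun h => ⟨x, (hX₁ x).1 h⟩⟩
  · obtain ⟨η, hη, h⟩ := Iter.iter (h1 Y) ε hε
    refine ⟨η, hη, fun T x hT hx hTx => ?_⟩
    obtain ⟨S, w, k1, k2, k3, k4, k5, -⟩ := h T x hT hx.le hTx
    exact ⟨S, w, k1, k2, k3, k5, k4⟩
  obtain ⟨η, hη, hb⟩ := hb (1 / 4) (by norm_num) (by norm_num)
  obtain ⟨m, hm⟩ := exists_pow_lt_of_lt_one hη (show (1 / 2 : ℝ) < 1 by norm_num)
  have hm0 : (0 : ℝ) < (1 / 2) ^ m := by positivity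
  have hm1 : (1 / 2 : ℝ) ^ m ≤ 1 := pow_le_one₀ (by norm_num) (by norm_num)
  have hE : ∀ n, π (e (E ℝ (0, n))) = E ℝ (0, n) := fun n =>
    (hπ _).trans (P_self ℝ (E_mem ℝ (p := (0, n)) le_rfl))
  let b : ℕ → X₁ := fun n => ⟨e (E ℝ (0, n)), (hX₁ _).2 (congrArg e (hE n))⟩
  let f : ℕ → X₁ →L[ℝ] ℝ := fun n => (innerSL ℝ (E ℝ (0, n))).comp (π.comp X₁.subtypeL)
  have f0 : ∀ x, |f 0 x| ≤ 2 * ‖x‖ := fun x => h4 ℝ _ 2 (coord0 ℝ) x
  have f1 : ∀ x, |f 1 x| ≤ 1 * ‖x‖ := fun x => h4 ℝ _ 1 (fun c h _ hh => coord1 ℝ c h hh) x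
  have fb : ∀ n k, f n (b k) = if n = k then 1 else 0 := fun n k => by
    show inner ℝ (E ℝ (0, n)) (π (e (E ℝ (0, k)))) = _
    rw [hE, orthonormal_iff_ite.1 (E_on ℝ)]
    simp
  have b1 : ∀ n, ‖b n‖ ≤ 1 := fun n => by
    simpa using h2 0 (E ℝ (0, n)) (by simp) ((E_on ℝ).norm_eq_one _).le
  let T : X₁ →L[ℝ] Y := (d : c0 →L[ℝ] Y).comp
    ((f 1).smulRight (u m) + ((1 / 2 : ℝ) • f 0).smulRight (u (m + 1)))
  have hT : ∀ x, T x = d (f 1 x • u m + (1 / 2 * f 0 x) • u (m + 1)) := fun x => rfl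
  have T1 : ‖T‖ ≤ 1 + (1 / 2) ^ m := bound _ fun x hx => by
    have h5 := two_le m (s := f 1 x) (t := 1 / 2 * f 0 x) (by linarith [f1 x]) (by
      rw [abs_mul, abs_of_pos one_half_pos]; linarith [f0 x])
    rw [← hd0, ← hT] at h5
    exact le_of_sq_le_sq (by nlinarith) (by positivity)
  have T2 : 1 ≤ ‖T (b 1)‖ := by
    have h5 := (abs_le_norm _ m).trans (hd1 (f 1 (b 1) • u m + (1 / 2 * f 0 (b 1)) • u (m + 1)))
    rwa [two, if_pos rfl, ← hT, fb, if_pos rfl, abs_one] at h5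
  have T3 : 1 / 2 ≤ ‖T (b 0)‖ := by
    have h5 := (abs_le_norm _ (m + 1)).trans
      (hd1 (f 1 (b 0) • u m + (1 / 2 * f 0 (b 0)) • u (m + 1)))
    rwa [two, if_neg (by omega), if_pos rfl, ← hT, fb, if_pos rfl, mul_one,
      abs_of_pos one_half_pos] at h5
  have T4 : 0 < ‖T‖ := by linarith [T.unit_le_opNorm _ (b1 1)]
  have T5 : ∀ x, ‖(‖T‖⁻¹ • T) x‖ = ‖T x‖ / ‖T‖ := fun x => by
    rw [smul_apply, norm_smul, norm_inv, Real.norm_of_nonneg T4.le, div_eq_inv_mul]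
  obtain ⟨S, w, k1, k2, k3, k4, k5⟩ := hb (‖T‖⁻¹ • T) (b 1)
    (by rw [norm_smul, norm_inv, Real.norm_of_nonneg T4.le, inv_mul_cancel₀ T4.ne'])
    (le_antisymm (b1 1) (by simpa [fb] using f1 (b 1))) (by
      rw [T5, lt_div_iff₀ T4]
      rcases le_or_gt 1 η with h | h
      · nlinarith
      · nlinarith [mul_le_mul_of_nonneg_left T1 (sub_pos.2 h).le])
  have k6 : |f 0 w| ≤ 1 / 2 := by
    have h5 := f0 (b 1 - w)
    rw [map_sub, fb, if_neg zero_ne_one, zero_sub, abs_neg] at h5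
    linarith
  have k7 : ‖π w - f 0 w • E ℝ (0, 0)‖ ≤ 1 := by
    have h5 := h4 _ (ContinuousLinearMap.id ℝ _ - (innerSL ℝ (E ℝ (0, 0))).smulRight (E ℝ (0, 0))) 1
      (fun c h _ hh => by
        have h6 := (E_on ℝ).norm_eq_one (0, 0)
        have h7 : (ContinuousLinearMap.id ℝ (HH ℝ) -
            (innerSL ℝ (E ℝ (0, 0))).smulRight (E ℝ (0, 0)) : HH ℝ →L[ℝ] HH ℝ)
            (c • E ℝ (0, 0) + h) = h - inner ℝ (E ℝ (0, 0)) h • E ℝ (0, 0) := by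
          show c • E ℝ (0, 0) + h - inner ℝ (E ℝ (0, 0)) (c • E ℝ (0, 0) + h) • E ℝ (0, 0) = _
          rw [inner_add_right, inner_smul_right, inner_self_eq_one_of_norm_eq_one h6, mul_one,
            add_smul, add_sub_add_left_eq_sub]
        refine le_of_sq_le_sq ?_ zero_le_one
        rw [h7, norm_sub_sq_real, inner_smul_right, real_inner_comm, norm_smul, h6, mul_one,
          Real.norm_eq_abs, sq_abs]
        nlinarith [norm_nonneg h, sq_nonneg (inner ℝ h (E ℝ (0, 0)))]) w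
    exact h5.trans_eq (by rw [one_mul]; exact k2)
  have k8 : ∀ c : ℝ, |c| = 1 / 2 → ‖S (w + c • b 0)‖ ≤ ‖S w‖ := fun c hc => by
    have h5 := h2 (f 0 w + c) _ ((abs_add_le _ _).trans (by linarith)) k7
    rw [add_smul, add_assoc, add_comm (c • _), ← add_assoc, add_sub_cancel, map_add, map_smul,
      show e (π w) = w from (hX₁ _).1 w.2] at h5
    rw [k3, ← k1]
    exact S.unit_le_opNorm _ h5
  have k9 := hd2 (S w) ((1 / 2 : ℝ) • S (b 0)) (by simpa using k8 (1 / 2) (by norm_num))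
    (by simpa [sub_eq_add_neg] using k8 (-(1 / 2)) (by norm_num))
  have k10 := (S - ‖T‖⁻¹ • T).unit_le_opNorm _ (b1 0)
  rw [sub_apply, (smul_eq_zero.1 k9).resolve_left (by norm_num), zero_sub, norm_neg, T5,
    div_le_iff₀ T4] at k10
  nlinarith [mul_lt_mul_of_pos_right k5 T4]

end Pool.Agent.Results.MP_5ffaeb_an.BPBQ1
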