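import Pool.Agent.H5.Strict

set_option autoImplicit false

open Filter Topology

namespace Pool.Agent.Results.MP_5ffaeb_an.DensityQ2

open Pool.Agent.H5 Pool.Agent.H5.Asq

/-- the operators from `X` to `Y` that attain their norm -/
def NA (X Y : Type) [NormedAddCommGroup X] [NormedSpace ℝ X] [NormedAddCommGroup Y]
    [NormedSpace ℝ Y] : Set (X →L[ℝ] Y) := {T | ∃ x : X, ‖x‖ = 1 ∧ ‖T x‖ = ‖T‖}

abbrev I : Type := {u : c0 // ‖u‖ = 1}
noncomputable instance : DecidableEq I := Classical.decEq I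
abbrev L : Type := lp (fun _ : I => ℝ) 1
abbrev W : Type := c0 × L

noncomputable def g (u : I) (s : ℝ) : W := (u.1, lp.single 1 u s)

def A : Set (W →L[ℝ] ℝ) := {φ | ∀ u s, |s| = 1 → |φ (g u s)| ≤ 1}

lemma A_le {φ : W →L[ℝ] ℝ} (h : φ ∈ A) (w : W) : φ w ≤ ‖w.1‖ + ‖w.2‖ := by
  have h0 : ∀ (u : I) (s : ℝ), φ (g u s) = φ (u.1, 0) + s * φ (0, lp.single 1 u 1) := fun u s => by
    rw [← smul_eq_mul, ← map_smul, ← map_add]
    congr 1
    refine Prod.ext (by simp [g]) ?_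
    show lp.single 1 u s = 0 + s • (lp.single 1 u (1 : ℝ) : L)
    rw [zero_add, ← lp.single_smul, smul_eq_mul, mul_one]
  have h1 : ∀ u : I, |φ (u.1, 0)| ≤ 1 ∧ |φ (0, lp.single 1 u 1)| ≤ 1 := fun u => by
    have h2 := abs_le.1 (h u 1 (by simp))
    have h3 := abs_le.1 (h u (-1) (by simp))
    rw [h0] at h2 h3
    constructor <;> rw [abs_le] <;> constructor <;> linarith [h2.1, h2.2, h3.1, h3.2]
  have h2 : ‖φ.comp (ContinuousLinearMap.inl ℝ c0 L)‖ ≤ 1 :=
    ContinuousLinearMap.opNorm_le_of_unit_norm zero_le_one fun x hx => (h1 ⟨x, hx⟩).1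
  have h3 : φ (w.1, 0) ≤ ‖w.1‖ := (le_abs_self _).trans
    (((φ.comp (ContinuousLinearMap.inl ℝ c0 L)).le_opNorm w.1).trans
      (mul_le_of_le_one_left (norm_nonneg _) h2))
  have h4 : φ (0, w.2) ≤ ‖w.2‖ := by
    have h5 := (lp.hasSum_single (p := 1) (by norm_num) w.2).mapL
      (φ.comp (ContinuousLinearMap.inr ℝ c0 L))
    have h6 : HasSum (fun i => |w.2 i|) ‖w.2‖ := by
      simpa using lp.hasSum_norm (p := 1) (by norm_num) w.2
    refine hasSum_le (fun u => ?_) h5 h6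
    have h7 : (lp.single 1 u (w.2 u) : L) = w.2 u • lp.single 1 u (1 : ℝ) := by
      rw [← lp.single_smul, smul_eq_mul, mul_one]
    rw [h7, map_smul, smul_eq_mul]
    refine (le_abs_self _).trans ?_
    rw [abs_mul]
    exact mul_le_of_le_one_right (abs_nonneg _) (h1 u).2
  have h5 : φ w = φ (w.1, 0) + φ (0, w.2) := by rw [← map_add]; simp
  linarith

noncomputable def N (w : W) : ℝ := ⨆ φ : A, |φ.1 w|

instance : Nonempty A := ⟨⟨0, fun u s _ => by simp⟩⟩

lemma A_abs {φ : W →L[ℝ] ℝ} (h : φ ∈ A) (w : W) : |φ w| ≤ ‖w.1‖ + ‖w.2‖ :=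
  abs_le.2 ⟨by have := A_le h (-w); simp only [map_neg, Prod.fst_neg, Prod.snd_neg, norm_neg] at this
               linarith, A_le h w⟩

lemma le_N {φ : W →L[ℝ] ℝ} (h : φ ∈ A) (w : W) : |φ w| ≤ N w :=
  le_ciSup (f := fun φ : A => |φ.1 w|) ⟨_, by rintro _ ⟨φ, rfl⟩; exact A_abs φ.2 w⟩ ⟨φ, h⟩

lemma fst_le (w : W) : ‖w.1‖ ≤ N w := by
  obtain ⟨f, hf, hf'⟩ := exists_dual_vector'' ℝ w.1
  have h := le_N (φ := f.comp (ContinuousLinearMap.fst ℝ c0 L)) (fun u s _ =>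
    (f.le_opNorm u.1).trans (by rw [u.2, mul_one]; exact hf)) w
  exact (le_of_eq hf'.symm).trans ((le_abs_self _).trans h)

lemma snd_le (w : W) : ‖w.2‖ ≤ N w := by
  obtain ⟨f, hf, hf'⟩ := exists_dual_vector'' ℝ w.2
  have h := le_N (φ := f.comp (ContinuousLinearMap.snd ℝ c0 L)) (fun u s hs =>
    (f.le_opNorm (lp.single 1 u s)).trans (by
      rw [lp.norm_single (by norm_num), Real.norm_eq_abs, hs, mul_one]; exact hf)) w
  exact (le_of_eq hf'.symm).trans ((le_abs_self _).trans h)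

lemma space : ∃ (X : Type) (_ : NormedAddCommGroup X) (_ : NormedSpace ℝ X)
    (_ : CompleteSpace X) (e : W ≃L[ℝ] X), ∀ v, ‖e v‖ = N v := by
  refine Renorm.renorm W N (a := 1) (b := 2) one_pos (fun x y => ciSup_le fun φ => ?_)
    (fun c x => ?_) (fun x => ?_) (fun x => ciSup_le fun φ => ?_)
  · rw [map_add]
    exact (abs_add_le _ _).trans (add_le_add (le_N φ.2 x) (le_N φ.2 y))
  · unfold N
    rw [Real.mul_iSup_of_nonneg (abs_nonneg c)]
    simp only [map_smul, smul_eq_mul, abs_mul]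
  · rw [one_mul, Prod.norm_def]
    exact max_le (fst_le x) (snd_le x)
  · linarith [A_abs φ.2 x, norm_fst_le x, norm_snd_le x]

lemma u_norm (k : ℕ) : ‖u k‖ = 1 := le_antisymm (norm_le_of _ zero_le_one fun j => by
    show |if j = k then (1 : ℝ) else 0| ≤ 1
    split_ifs <;> simp) (by
  have h := abs_le_norm (u k) k
  have h1 : u k k = 1 := if_pos rfl
  rwa [h1, abs_one] at h)

lemma dense_na {X Y : Type} [NormedAddCommGroup X] [NormedSpace ℝ X] [NormedAddCommGroup Y]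
    [NormedSpace ℝ Y] (e : W ≃L[ℝ] X) (he : ∀ v, ‖e v‖ = N v) : Dense (NA X Y) := by
  have hg : ∀ u s, |s| = 1 → ‖e (g u s)‖ = 1 := fun u s hs => by
    rw [he]
    exact le_antisymm (ciSup_le fun φ => φ.2 u s hs) (u.2.symm.le.trans (fst_le (g u s)))
  have hop : ∀ (S : X →L[ℝ] Y) (C : ℝ), 0 < C → (∀ u s, |s| = 1 → ‖S (e (g u s))‖ ≤ C) →
      ‖S‖ ≤ C := fun S C hC h => S.opNorm_le_bound hC.le fun x => by
    obtain ⟨w, rfl⟩ := e.surjective x
    obtain ⟨f, hf, hf'⟩ := exists_dual_vector'' ℝ (S (e w))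
    have h1 := le_N (φ := C⁻¹ • (f.comp S).comp e.toContinuousLinearMap) (fun u s hs => by
      show |C⁻¹ * f (S (e (g u s)))| ≤ 1
      rw [abs_mul, abs_inv, abs_of_pos hC, inv_mul_le_iff₀ hC, mul_one]
      exact (f.le_opNorm _).trans ((mul_le_of_le_one_left (norm_nonneg _) hf).trans (h u s hs))) w
    have h2 : (C⁻¹ • (f.comp S).comp e.toContinuousLinearMap) w = C⁻¹ * ‖S (e w)‖ :=
      congrArg (C⁻¹ * ·) hf'
    rw [h2] at h1
    rw [he, ← inv_mul_le_iff₀ hC]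
    exact (le_abs_self _).trans h1
  rw [Metric.dense_iff]
  intro T r hr
  rcases eq_or_ne T 0 with rfl | hT
  · exact ⟨0, Metric.mem_ball_self hr, e (g ⟨u 0, u_norm 0⟩ 1), hg _ _ (by simp), by simp⟩
  have hT0 := norm_pos_iff.2 hT
  obtain ⟨ε, hε, hεr⟩ : ∃ ε : ℝ, 0 < ε ∧ ε * ‖T‖ < r := ⟨r / (2 * ‖T‖), by positivity, by
    have : r / (2 * ‖T‖) * ‖T‖ = r / 2 := by field_simp
    linarith⟩
  obtain ⟨v, s, hs, hv⟩ : ∃ v s, |s| = 1 ∧ (1 + ε / 2) / (1 + ε) * ‖T‖ < ‖T (e (g v s))‖ := by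
    by_contra hcon
    push Not at hcon
    have h1 := hop T _ (by positivity) hcon
    have h2 : (1 + ε / 2) / (1 + ε) < 1 := by rw [div_lt_one (by positivity)]; linarith
    nlinarith
  obtain ⟨f, hf, hf'⟩ := exists_dual_vector'' ℝ v.1
  let ψ : W →L[ℝ] ℝ := (1 / 2 : ℝ) • (f.comp (ContinuousLinearMap.fst ℝ c0 L) +
    s • (lp.evalCLM ℝ (fun _ : I => ℝ) 1 v).comp (ContinuousLinearMap.snd ℝ c0 L))
  have hψ : ∀ w t, ψ (g w t) = 1 / 2 * (f w.1 + s * (lp.single 1 w t : L) v) := fun w t => rfl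
  have hss : s * s = 1 := by rw [← abs_mul_abs_self, hs, mul_one]
  have hfv : f v.1 = 1 := hf'.trans v.2
  have hψ1 : ψ (g v s) = 1 := by rw [hψ, lp.single_apply_self, hfv, hss]; norm_num
  have hψ2 : ∀ w t, |t| = 1 → g w t = g v s ∨ |ψ (g w t)| ≤ 1 / 2 := fun w t ht => by
    rw [hψ]
    by_cases h : v = w
    · subst h
      rw [lp.single_apply_self, hfv]
      rcases (abs_eq_abs.1 (ht.trans hs.symm)) with rfl | rfl
      · exact Or.inl rfl
      · right
        rw [mul_neg, hss]; norm_num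
    · right
      have h1 : |f w.1| ≤ 1 := (f.le_opNorm w.1).trans (by rw [w.2, mul_one]; exact hf)
      rw [lp.single_apply_ne _ _ _ h, mul_zero, add_zero, abs_mul]
      rw [abs_of_pos (by norm_num : (0 : ℝ) < 1 / 2)]
      linarith
  let R : X →L[ℝ] Y := (ψ.comp e.symm.toContinuousLinearMap).smulRight (ε • T (e (g v s)))
  have hR : ∀ w, R (e w) = ψ w • ε • T (e (g v s)) := fun w => by
    show ψ (e.symm (e w)) • ε • T (e (g v s)) = _
    rw [e.symm_apply_apply]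
  have hTg : ∀ w t, |t| = 1 → ‖T (e (g w t))‖ ≤ ‖T‖ := fun w t ht =>
    (T.le_opNorm _).trans (by rw [hg w t ht, mul_one])
  have hRn : ∀ w t, ‖R (e (g w t))‖ = |ψ (g w t)| * (ε * ‖T (e (g v s))‖) := fun w t => by
    rw [hR, norm_smul, norm_smul, Real.norm_eq_abs, Real.norm_of_nonneg hε.le]
  have h1 : ‖(T + R) (e (g v s))‖ = (1 + ε) * ‖T (e (g v s))‖ := by
    rw [add_apply, hR, hψ1, one_smul, ← Real.norm_of_nonneg (show 0 ≤ 1 + ε by positivity),
      ← norm_smul, add_smul, one_smul]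
  have h2 : (1 + ε / 2) * ‖T‖ < (1 + ε) * ‖T (e (g v s))‖ := by
    rw [div_mul_eq_mul_div, div_lt_iff₀ (by positivity)] at hv
    linarith
  refine ⟨T + R, ?_, e (g v s), hg _ _ hs, le_antisymm ?_ ?_⟩
  · rw [mem_ball_iff_norm, add_sub_cancel_left]
    refine (hop R _ (by positivity) fun w t ht => ?_).trans_lt hεr
    rw [hRn]
    have h3 : |ψ (g w t)| ≤ 1 := by
      rcases hψ2 w t ht with h | h
      · rw [h, hψ1, abs_one]
      · linarith
    exact (mul_le_of_le_one_left (by positivity) h3).trans (by gcongr; exact hTg v s hs)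
  · exact ((T + R).le_opNorm _).trans (by rw [hg _ _ hs, mul_one])
  · refine hop _ _ (by rw [h1]; nlinarith) fun w t ht => ?_
    rcases hψ2 w t ht with h | h
    · rw [h]
    · rw [h1, add_apply]
      refine (norm_add_le _ _).trans ?_
      have h3 : |ψ (g w t)| * (ε * ‖T (e (g v s))‖) ≤ 1 / 2 * (ε * ‖T‖) := by
        gcongr; exact hTg v s hs
      rw [hRn]
      linarith [hTg w t ht]

/-- Density of the norm attaining operators does not pass to one-complemented subspaces of the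
domain. -/
theorem result : ∃ (X Y : Type) (_ : NormedAddCommGroup X) (_ : NormedSpace ℝ X)
    (_ : CompleteSpace X) (_ : NormedAddCommGroup Y) (_ : NormedSpace ℝ Y) (_ : CompleteSpace Y)
    (X₁ : Submodule ℝ X) (P : X →L[ℝ] X), IsClosed (X₁ : Set X) ∧ (∀ x, P (P x) = P x) ∧
      Set.range P = X₁ ∧ ‖P‖ ≤ 1 ∧ Dense (NA X Y) ∧ ¬ Dense (NA X₁ Y) := by
  obtain ⟨X, i1, i2, i3, e, he⟩ := space
  obtain ⟨Y, j1, j2, j3, d, -, hd1, hd2⟩ := Strict.space
  let π : X →L[ℝ] c0 := (ContinuousLinearMap.fst ℝ c0 L).comp e.symm.toContinuousLinearMap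
  let ι : c0 →L[ℝ] X := e.toContinuousLinearMap.comp (ContinuousLinearMap.inl ℝ c0 L)
  have hπι : ∀ x, π (ι x) = x := fun x => by simp [π, ι]
  have hι : ∀ x, ‖ι x‖ = ‖x‖ := fun x => by
    show ‖e (x, 0)‖ = _
    rw [he]
    exact le_antisymm (ciSup_le fun φ => by simpa using A_abs φ.2 (x, 0)) (fst_le (x, 0))
  have hπ : ∀ x, ‖π x‖ ≤ ‖x‖ := fun x =>
    (fst_le (e.symm x)).trans_eq (by rw [← he, e.apply_symm_apply])
  let P := ι.comp π
  have hP : ∀ x, P (P x) = P x := fun x => congrArg ι (hπι _)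
  let X₁ : Submodule ℝ X := LinearMap.ker (P - ContinuousLinearMap.id ℝ X).toLinearMap
  have hX₁ : ∀ x, x ∈ X₁ ↔ P x = x := fun x => sub_eq_zero
  refine ⟨X, Y, i1, i2, i3, j1, j2, j3, X₁, P, ContinuousLinearMap.isClosed_ker _, hP, ?_,
    P.opNorm_le_bound zero_le_one fun x => by rw [one_mul]; exact (hι _).trans_le (hπ x),
    dense_na e he, fun hden => ?_⟩
  · ext x
    exact ⟨by rintro ⟨y, rfl⟩; exact (hX₁ _).2 (hP y), fun h => ⟨x, (hX₁ x).1 h⟩⟩
  obtain ⟨S, hS, x, hx, hSx⟩ := Metric.dense_iff.1 hden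
    (d.toContinuousLinearMap.comp (π.comp X₁.subtypeL)) 1 one_pos
  obtain ⟨n, hn⟩ := ((c0_lim (π x)).eventually (gt_mem_nhds one_half_pos)).exists
  let b : X₁ := ⟨ι (u n), (hX₁ _).2 (congrArg ι (hπι _))⟩
  have hx1 : ‖π x‖ = 1 := by rw [← hι, show ι (π x) = x from (hX₁ _).1 x.2]; exact hx
  have h1 : ∀ c : ℝ, |c| = 1 / 2 → ‖S (x + c • b)‖ ≤ ‖S x‖ := fun c hc => by
    have h2 : ‖x + c • b‖ = ‖π x + c • u n‖ := by
      rw [← hι, map_add, map_smul, show ι (π x) = x from (hX₁ _).1 x.2]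
      rfl
    have h3 : ‖π x + c • u n‖ ≤ 1 := norm_le_of _ zero_le_one fun k => by
      show |π x k + c * if k = n then 1 else 0| ≤ 1
      split_ifs with h
      · rw [h, mul_one]
        linarith [abs_add_le (π x n) c]
      · rw [mul_zero, add_zero]
        exact (abs_le_norm _ k).trans hx1.le
    rw [hSx]
    exact (S.le_opNorm _).trans (mul_le_of_le_one_right (norm_nonneg _) (h2.trans_le h3))
  have h2 := hd2 (S x) ((1 / 2 : ℝ) • S b) (by simpa using h1 (1 / 2) (by norm_num))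
    (by simpa [sub_eq_add_neg] using h1 (-(1 / 2)) (by norm_num))
  have h3 : S b = 0 := (smul_eq_zero.1 h2).resolve_left (by norm_num)
  have h4 := (S - d.toContinuousLinearMap.comp (π.comp X₁.subtypeL)).le_opNorm b
  have h5 : ‖b‖ = 1 := (hι _).trans (u_norm n)
  have h6 : (d.toContinuousLinearMap.comp (π.comp X₁.subtypeL)) b = d (u n) := congrArg d (hπι _)
  rw [sub_apply, h3, zero_sub, norm_neg, h5, mul_one, h6] at h4
  have h7 := hd1 (u n)
  rw [u_norm] at h7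
  linarith [mem_ball_iff_norm.1 hS]

end Pool.Agent.Results.MP_5ffaeb_an.DensityQ2
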